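import Mathlib
import Pool.Graph.R_pool_sql_team_39128cda.H.MP_451b27_lc.D
import Pool.Agent.H314.SW.Comp

set_option autoImplicit false

/-! # It is undecidable whether the sandwich problem for `F`-free graphs is a CSP -/

namespace Pool.Agent.Results.MP_451b27_lc.Undecidable

/-- A finite graph as an explicit input: the number of vertices and a list of edges. -/
abbrev GCode := ℕ × List (ℕ × ℕ)

/-- The graph given by a code: the vertices are `0, …, k - 1`, and two distinct vertices `i`, `j`
are adjacent if `(i, j)` or `(j, i)` is in the list. -/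
def GCode.graph (c : GCode) : SimpleGraph (Fin c.1) :=
  SimpleGraph.fromRel fun i j => ((i : ℕ), (j : ℕ)) ∈ c.2

/-- `E` is `F`-free: no member of `F` is isomorphic to an induced subgraph of `E`. -/
def Free {V : Type} (F : List GCode) (E : SimpleGraph V) : Prop :=
  ∀ c ∈ F, IsEmpty (c.graph ↪g E)

/-- A 2-edge-coloured graph: blue edges `B`, red edges `R`. -/
structure TwoGraph (V : Type) where
  /-- the blue edges -/
  B : SimpleGraph V
  /-- the red edges -/
  R : SimpleGraph V
  disj : Disjoint B R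

/-- There is a homomorphism `G → H` of 2-edge-coloured graphs. -/
def Hom {V W : Type} (G : TwoGraph V) (H : TwoGraph W) : Prop :=
  ∃ f : V → W, (∀ u v, G.B.Adj u v → H.B.Adj (f u) (f v)) ∧
    ∀ u v, G.R.Adj u v → H.R.Adj (f u) (f v)

/-- `G` is a yes-instance of the sandwich problem for the class of the `F`-free graphs. -/
def InSP {V : Type} (F : List GCode) (G : TwoGraph V) : Prop :=
  ∃ E : SimpleGraph V, G.B ≤ E ∧ Disjoint E G.R ∧ Free F E

/-- The sandwich problem for the `F`-free graphs is `CSP(H)` for some (finite or infinite)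
2-edge-coloured graph `H`. -/
def IsCSP (F : List GCode) : Prop :=
  ∃ (W : Type) (H : TwoGraph W), ∀ (V : Type) [Finite V] (G : TwoGraph V), InSP F G ↔ Hom G H

open Pool.Agent.H314.SW Pool.Agent.H.MP_451b27_lc Pool.Agent.Lib.helper21.CPred
open Pool.Agent.Lib.helper21.While Pool.Agent.Lib.helper21.Mach

theorem graph_adj {z : ℕ × ℕ} (i j : Fin z.1) :
    (GCode.graph (z.1, edges z)).Adj i j ↔ adj z i j := by
  rw [GCode.graph, SimpleGraph.fromRel_adj, mem_edges i.2 j.2, mem_edges j.2 i.2, adj]
  simp only [ne_eq, Fin.ext_iff]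

/-- A 2-edge-coloured complete graph. -/
def full {V : Type} (E : SimpleGraph V) : TwoGraph V := ⟨E, Eᶜ, disjoint_compl_right⟩

theorem result : ¬ ComputablePred IsCSP := by
  classical
  intro hC
  obtain ⟨Q, _, M, q0, hM⟩ := Pool.Agent.Lib.helper21.Queue.exists_cm0
  obtain ⟨K', hK⟩ := (Set.finite_range M.reg).bddAbove
  set K := K' + 1 with hKdef
  let ρ : Q → Fin K := fun q => ⟨M.reg q, Nat.lt_succ_of_le (hK ⟨q, rfl⟩)⟩
  let r0 : Fin K := ⟨0, by omega⟩
  have := Fintype.ofFinite Q
  let m := Fintype.card (Ty Q K)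
  let en : Ty Q K ≃ Fin m := Fintype.equivFin _
  -- the obstructions
  let K0 : ℕ := (2 * m + 11) * (1 + m * (2 * m + 3))
  let K1 : ℕ → ℕ := fun n => (n + 5) * (1 + m * (2 * m + 3))
  let bd : ℕ → ℕ := fun k => (k + 2 ^ (k * k) + 1) ^ 2
  let bad0 : ℕ → Prop := fun x => ¬ Good0 en M ρ q0 r0 (GCode.graph (x.unpair.1, edges x.unpair))
  let code : ℕ → GCode := fun x => (x.unpair.1, edges x.unpair)
  let F0 : List GCode := flt bad0 code (bd K0)
  let F1 : ℕ → List GCode := fun n => flt (fun x => ¬ chk en r0 n x.unpair) code (bd (K1 n))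
  have cF1 : Computable F1 := by
    have F := Computable.fst (α := ℕ) (β := ℕ)
    have S := Computable.snd (α := ℕ) (β := ℕ)
    refine cflt (p := fun n x => ¬ chk en r0 n x.unpair) (g := fun _ x => code x)
      (cchk en r0 F (Computable.unpair.comp S)).not ?_ ?_
    · exact (F.comp (Computable.unpair.comp S)).pair (cedges (Computable.unpair.comp S))
    · have h1 : Computable K1 := cmul (cadd Computable.id (Computable.const _))
        (Computable.const _)
      exact cpow (cadd (cadd h1 (cpow (Computable.const 2) (cmul h1 h1))) (Computable.const 1))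
        (Computable.const 2)
  have cF : Computable fun n => F0 ++ F1 n :=
    Computable.list_append.comp (Computable.const F0) cF1
  -- every graph on at most `k` vertices has a code
  have num : ∀ (N k : ℕ) (G : SimpleGraph (Fin k)), k ≤ N → ∃ x < bd N,
      ∃ h : (code x).1 = k, ∀ i j : Fin (code x).1,
        (code x).graph.Adj i j ↔ G.Adj (Fin.cast h i) (Fin.cast h j) := by
    intro N k G hk
    obtain ⟨c, h1, h2⟩ := exists_num G
    refine ⟨Nat.pair k c, ?_, by simp [code], fun i j => ?_⟩
    · refine (Nat.pair_lt_max_add_one_sq k c).trans_le (Nat.pow_le_pow_left ?_ 2)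
      have h3 : 2 ^ (k * k) ≤ 2 ^ (N * N) :=
        Nat.pow_le_pow_right (by norm_num) (Nat.mul_le_mul hk hk)
      have : max k c ≤ N + 2 ^ (N * N) := by
        rw [max_le_iff]; constructor <;> omega
      omega
    · rw [graph_adj, h2]
      simp [code]
  -- the meaning of the obstructions
  have key : ∀ (n : ℕ) (V : Type) (E : SimpleGraph V), Free (F0 ++ F1 n) E ↔
      Good0 en M ρ q0 r0 E ∧ GoodI en r0 n E := by
    intro n V E
    have pullc : ∀ {k : ℕ} {G : SimpleGraph (Fin k)} {c : GCode} (h : c.1 = k)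
        (_ : ∀ i j : Fin c.1, c.graph.Adj i j ↔ G.Adj (Fin.cast h i) (Fin.cast h j)),
        Nonempty (c.graph ≃g G) := fun h h' => ⟨⟨finCongr h, fun {i j} => (h' i j).symm⟩⟩
    constructor
    · intro hF
      constructor
      · refine Good0.loc fun k hk f hf => ?_
        by_contra hbad
        obtain ⟨x, hx, h, h'⟩ := num K0 k (E.comap f) hk
        obtain ⟨φ⟩ := pullc h h'
        have hmem : code x ∈ F0 ++ F1 n := by
          refine List.mem_append_left _ (mem_flt.2 ⟨x, hx, fun hg => hbad ?_, rfl⟩)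
          exact Good0.pull (g := φ.symm) (fun u v => (φ.symm.map_adj_iff).symm) hg
        exact (hF _ hmem).false (φ.toEmbedding.trans
          (SimpleGraph.Embedding.comap ⟨f, hf⟩ E))
      · refine GoodI.loc fun k hk f hf => ?_
        by_contra hbad
        obtain ⟨x, hx, h, h'⟩ := num (K1 n) k (E.comap f) hk
        obtain ⟨φ⟩ := pullc h h'
        have hmem : code x ∈ F0 ++ F1 n := by
          refine List.mem_append_right _ (mem_flt.2 ⟨x, hx, fun hg => hbad ?_, rfl⟩)
          exact GoodI.pull (g := φ.symm) (fun u v => (φ.symm.map_adj_iff).symm)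
            ((goodI_iff (z := x.unpair) graph_adj).2 hg)
        exact (hF _ hmem).false (φ.toEmbedding.trans
          (SimpleGraph.Embedding.comap ⟨f, hf⟩ E))
    · rintro ⟨h0, h1⟩ c hc
      refine ⟨fun φ => ?_⟩
      rcases List.mem_append.1 hc with hc | hc
      · obtain ⟨x, -, hb, rfl⟩ := mem_flt.1 hc
        exact hb (Good0.pull (g := φ) (fun u v => (φ.map_adj_iff).symm) h0)
      · obtain ⟨x, -, hb, rfl⟩ := mem_flt.1 hc
        exact hb ((goodI_iff (z := x.unpair) graph_adj).1
          (GoodI.pull (g := φ) (fun u v => (φ.map_adj_iff).symm) h1))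
  -- the reduction
  refine hM ((ccomp hC cF).not.of_eq fun n => ?_)
  constructor
  · -- not a CSP, so the machine halts
    intro hn
    by_contra hh
    obtain ⟨W, U, hU0, hUI, hemb⟩ := universal (en := en) (M := M) (ρ := ρ) (q0 := q0) (r0 := r0)
      (n := n) (fun _ => rfl) rfl hh
    refine hn ⟨W, full U, fun V _ G => ⟨?_, ?_⟩⟩
    · rintro ⟨E, hB, hR, hE⟩
      obtain ⟨h0, h1⟩ := (key n V E).1 hE
      obtain ⟨k, ⟨e⟩⟩ := Finite.exists_equiv_fin V
      obtain ⟨f, hf, hadj⟩ := hemb k (E.comap e.symm)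
        (Good0.pull (g := e.symm) (fun _ _ => Iff.rfl) h0)
        (GoodI.pull (g := e.symm) (fun _ _ => Iff.rfl) h1)
      have hadj' : ∀ u v : V, E.Adj u v ↔ U.Adj (f (e u)) (f (e v)) := by
        intro u v
        rw [← hadj]
        simp
      refine ⟨f ∘ e, fun u v huv => (hadj' u v).1 (hB huv), fun u v huv => ?_⟩
      simp only [full, SimpleGraph.compl_adj, Function.comp_apply]
      refine ⟨fun h => huv.ne (e.injective (hf h)), fun h => ?_⟩
      exact (SimpleGraph.disjoint_left.1 hR u v ((hadj' u v).2 h)) huv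
    · rintro ⟨g, hB, hR⟩
      refine ⟨U.comap g, fun u v huv => hB u v huv, ?_, (key n V _).2
        ⟨Good0.pull (g := g) (fun _ _ => Iff.rfl) hU0,
          GoodI.pull (g := g) (fun _ _ => Iff.rfl) hUI⟩⟩
      rw [SimpleGraph.disjoint_left]
      intro u v h1 h2
      exact ((SimpleGraph.compl_adj _ _ _).1 (hR u v h2)).2 h1
  · -- the machine halts, so it is not a CSP
    rintro hh ⟨W, H, hH⟩
    obtain ⟨k1, k2, E1, E2, a1, b1, a2, b2, hno⟩ := no_jep (en := en) (M := M) (ρ := ρ)
      (q0 := q0) (r0 := r0) (n := n) (fun _ => rfl) rfl hh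
    have hfull : ∀ {V : Type} (E : SimpleGraph V), Good0 en M ρ q0 r0 E → GoodI en r0 n E →
        InSP (F0 ++ F1 n) (full E) := fun E h0 h1 =>
      ⟨E, le_rfl, disjoint_compl_right, (key n _ E).2 ⟨h0, h1⟩⟩
    obtain ⟨f1, g1, g1'⟩ := (hH _ _).1 (hfull E1 a1 b1)
    obtain ⟨f2, g2, g2'⟩ := (hH _ _).1 (hfull E2 a2 b2)
    -- the disjoint union
    let D : TwoGraph (Fin k1 ⊕ Fin k2) := ⟨E1 ⊕g E2, E1ᶜ ⊕g E2ᶜ, by
      rw [SimpleGraph.disjoint_left]
      rintro (u | u) (v | v) h1 h2 <;> simp at h1 h2
      · exact h2.2 h1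
      · exact h2.2 h1⟩
    obtain ⟨E, hB, hR, hE⟩ := (hH _ D).2 ⟨Sum.elim f1 f2, by
      rintro (u | u) (v | v) h <;> simp [D] at h
      · exact g1 u v h
      · exact g2 u v h, by
      rintro (u | u) (v | v) h <;> simp [D] at h
      · exact g1' u v ((SimpleGraph.compl_adj _ _ _).2 h)
      · exact g2' u v ((SimpleGraph.compl_adj _ _ _).2 h)⟩
    obtain ⟨h0, h1⟩ := (key n _ E).1 hE
    refine hno _ E Sum.inl Sum.inr (fun u v => ?_) (fun u v => ?_) h0 h1
    · constructor
      · intro h
        exact hB (by simpa [D] using h)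
      · intro h
        by_contra hn
        refine SimpleGraph.disjoint_left.1 hR (.inl u) (.inl v) h ?_
        have hne : u ≠ v := fun e => h.ne (by rw [e])
        simp [D, hne, hn]
    · constructor
      · intro h
        exact hB (by simpa [D] using h)
      · intro h
        by_contra hn
        refine SimpleGraph.disjoint_left.1 hR (.inr u) (.inr v) h ?_
        have hne : u ≠ v := fun e => h.ne (by rw [e])
        simp [D, hne, hn]

end Pool.Agent.Results.MP_451b27_lc.Undecidable
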